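import Mathlib

set_option autoImplicit false

namespace Pool.Agent.Q95.SN

open Real Set Finset

/-- A `C¹` function between `0` and `2 ε / A` whose derivative is bounded by `ε` and has the Lipschitz
constant `ε A`. -/
structure Bd (φ dφ : ℝ → ℝ) (A ε : ℝ) : Prop where
  hd : ∀ x, HasDerivAt φ (dφ x) x
  h0 : ∀ x, 0 ≤ φ x
  h0' : ∀ x, φ x ≤ 2 * ε / A
  h1 : ∀ x, |dφ x| ≤ ε
  h2 : ∀ x y, |dφ x - dφ y| ≤ ε * A * |x - y|

theorem key {B t c T : ℝ} (hB : 2 ≤ B) (ht : 0 < t) (hc : 0 ≤ c) (h1 : T ≤ c) (h2 : T * t ≤ c)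
    (h3 : T ≤ c * (B * t)) :
    T ≤ 8 * c * (B * t / (1 + B * t) - t / (1 + t)) := by
  have hBt : 0 < B * t := by positivity
  have e : B * t / (1 + B * t) - t / (1 + t) = (B - 1) * t / ((1 + B * t) * (1 + t)) := by
    field_simp
    ring
  rw [e, ← mul_div_assoc, le_div_iff₀ (by positivity)]
  have h4 : 4 * c * (B * t) ≤ 8 * c * ((B - 1) * t) := by
    have : 0 ≤ c * t * (B - 2) := by
      apply mul_nonneg (by positivity); linarith
    nlinarith
  refine le_trans ?_ h4
  rcases le_or_gt (B * t) 1 with hb | hb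
  · have ht1 : t ≤ 1 := by nlinarith
    have h5 : (1 + B * t) * (1 + t) ≤ 4 := by nlinarith
    rcases le_or_gt T 0 with hT | hT
    · have : T * ((1 + B * t) * (1 + t)) ≤ 0 := mul_nonpos_of_nonpos_of_nonneg hT (by positivity)
      have : 0 ≤ 4 * c * (B * t) := by positivity
      linarith
    · calc T * ((1 + B * t) * (1 + t)) ≤ T * 4 := by gcongr
        _ ≤ c * (B * t) * 4 := by gcongr
        _ = _ := by ring
  · rcases le_or_gt t 1 with ht1 | ht1
    · have h5 : (1 + B * t) * (1 + t) ≤ 4 * (B * t) := by nlinarith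
      rcases le_or_gt T 0 with hT | hT
      · have : T * ((1 + B * t) * (1 + t)) ≤ 0 := mul_nonpos_of_nonpos_of_nonneg hT (by positivity)
        have : 0 ≤ 4 * c * (B * t) := by positivity
        linarith
      · calc T * ((1 + B * t) * (1 + t)) ≤ c * (4 * (B * t)) := by gcongr
          _ = _ := by ring
    · have h5 : (1 + B * t) * (1 + t) ≤ t * (4 * (B * t)) := by nlinarith
      rcases le_or_gt T 0 with hT | hT
      · have : T * ((1 + B * t) * (1 + t)) ≤ 0 := mul_nonpos_of_nonpos_of_nonneg hT (by positivity)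
        have : 0 ≤ 4 * c * (B * t) := by positivity
        linarith
      · calc T * ((1 + B * t) * (1 + t)) ≤ T * (t * (4 * (B * t))) := by gcongr
          _ = (T * t) * (4 * (B * t)) := by ring
          _ ≤ c * (4 * (B * t)) := by gcongr
          _ = _ := by ring

theorem tele {B a c : ℝ} (hB : 2 ≤ B) (ha : 0 < a) (hc : 0 ≤ c) (N : ℕ) (T : ℕ → ℝ)
    (h1 : ∀ i, T i ≤ c) (h2 : ∀ i, T i * (B ^ (i + 1) * a) ≤ c)
    (h3 : ∀ i, T i ≤ c * (B * (B ^ (i + 1) * a))) : ∑ i ∈ range N, T i ≤ 8 * c := by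
  have hB0 : 0 < B := by linarith
  have e : ∀ i, T i ≤ 8 * c * ((B ^ (i + 1 + 1) * a) / (1 + B ^ (i + 1 + 1) * a)) -
      8 * c * ((B ^ (i + 1) * a) / (1 + B ^ (i + 1) * a)) := by
    intro i
    have h := key hB (t := B ^ (i + 1) * a) (by positivity) hc (h1 i) (h2 i) (h3 i)
    have e2 : B * (B ^ (i + 1) * a) = B ^ (i + 1 + 1) * a := by ring
    rw [e2] at h
    linarith
  calc ∑ i ∈ range N, T i ≤ ∑ i ∈ range N, (8 * c * ((B ^ (i + 1 + 1) * a) / (1 + B ^ (i + 1 + 1) * a)) -
      8 * c * ((B ^ (i + 1) * a) / (1 + B ^ (i + 1) * a))) := Finset.sum_le_sum fun i _ => e i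
    _ = 8 * c * ((B ^ (N + 1) * a) / (1 + B ^ (N + 1) * a)) -
        8 * c * ((B ^ (0 + 1) * a) / (1 + B ^ (0 + 1) * a)) := by
      rw [Finset.sum_range_sub (fun i => 8 * c * ((B ^ (i + 1) * a) / (1 + B ^ (i + 1) * a)))]
    _ ≤ 8 * c * 1 - 0 := by
      gcongr
      · rw [div_le_one (by positivity)]; linarith
      · positivity
    _ = 8 * c := by ring

theorem Bd.slope {φ dφ : ℝ → ℝ} {A ε : ℝ} (h : Bd φ dφ A ε) {x y : ℝ} (hxy : x < y) :
    ∃ ξ ∈ Ioo x y, φ y - φ x = dφ ξ * (y - x) := by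
  obtain ⟨c, hc, e⟩ := exists_hasDerivAt_eq_slope φ dφ hxy
    (fun z _ => (h.hd z).continuousAt.continuousWithinAt) (fun z _ => h.hd z)
  refine ⟨c, hc, ?_⟩
  rw [e, div_mul_cancel₀ _ (by linarith : y - x ≠ 0)]

theorem Bd.adj {φ dφ : ℝ → ℝ} {A ε B : ℝ} (h : Bd φ dφ A ε) (hA : 0 < A) (hε : 0 ≤ ε) {x z b : ℝ}
    (hxz : x < z) (hzb : z < b) {a : ℝ} (ha : 0 < a) (ha1 : a ≤ z - x) (ha2 : a ≤ b - z)
    (ha3 : z - x ≤ B * a) (ha4 : b - z ≤ B * a) :
    |(φ z - φ x) / (z - x) - (φ b - φ z) / (b - z)| ≤ 4 * ε ∧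
    |(φ z - φ x) / (z - x) - (φ b - φ z) / (b - z)| * (A * a) ≤ 4 * ε ∧
    |(φ z - φ x) / (z - x) - (φ b - φ z) / (b - z)| ≤ 4 * ε * (B * (A * a)) := by
  obtain ⟨ξ, hξ, e1⟩ := h.slope hxz
  obtain ⟨η, hη, e2⟩ := h.slope hzb
  have d1 : 0 < z - x := by linarith
  have d2 : 0 < b - z := by linarith
  have e3 : (φ z - φ x) / (z - x) = dφ ξ := by rw [e1]; field_simp
  have e4 : (φ b - φ z) / (b - z) = dφ η := by rw [e2]; field_simp
  refine ⟨?_, ?_, ?_⟩
  · rw [e3, e4]
    have := h.h1 ξ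
    have := h.h1 η
    have := abs_sub (dφ ξ) (dφ η)
    linarith
  · have k1 : |φ z - φ x| ≤ 2 * ε / A := by
      rw [abs_le]
      constructor <;> linarith [h.h0 z, h.h0 x, h.h0' z, h.h0' x]
    have k2 : |φ b - φ z| ≤ 2 * ε / A := by
      rw [abs_le]
      constructor <;> linarith [h.h0 z, h.h0 b, h.h0' z, h.h0' b]
    have k3 : |(φ z - φ x) / (z - x)| ≤ 2 * ε / A / a := by
      rw [abs_div, abs_of_pos d1]
      exact div_le_div₀ (by positivity) k1 ha ha1
    have k4 : |(φ b - φ z) / (b - z)| ≤ 2 * ε / A / a := by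
      rw [abs_div, abs_of_pos d2]
      exact div_le_div₀ (by positivity) k2 ha ha2
    have k5 := abs_sub ((φ z - φ x) / (z - x)) ((φ b - φ z) / (b - z))
    calc |(φ z - φ x) / (z - x) - (φ b - φ z) / (b - z)| * (A * a)
        ≤ (2 * ε / A / a + 2 * ε / A / a) * (A * a) := by gcongr; linarith
      _ = 4 * ε := by field_simp; ring
  · rw [e3, e4]
    refine (h.h2 ξ η).trans ?_
    have k1 : |ξ - η| ≤ b - x := by
      rw [abs_le]
      constructor <;> linarith [hξ.1, hξ.2, hη.1, hη.2]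
    calc ε * A * |ξ - η| ≤ ε * A * (2 * (B * a)) := by gcongr; linarith
      _ ≤ 4 * ε * (B * (A * a)) := by
        have : 0 ≤ ε * A * (B * a) := by
          have : 0 ≤ B * a := by linarith
          positivity
        nlinarith

/-- deviation from the chord -/
theorem Bd.dev {φ dφ : ℝ → ℝ} {A ε : ℝ} (h : Bd φ dφ A ε) (hA : 0 < A) (hε : 0 ≤ ε) {a b x : ℝ}
    (hab : a < b) (hax : a ≤ x) (hxb : x ≤ b) :
    |φ x - ((b - x) * φ a + (x - a) * φ b) / (b - a)| ≤ 2 * ε * (b - a) ∧
    |φ x - ((b - x) * φ a + (x - a) * φ b) / (b - a)| * A ≤ 2 * ε ∧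
    |φ x - ((b - x) * φ a + (x - a) * φ b) / (b - a)| ≤ 2 * ε * A * (b - a) ^ 2 := by
  have hl : 0 < b - a := by linarith
  have e : φ x - ((b - x) * φ a + (x - a) * φ b) / (b - a) =
      ((b - x) * (φ x - φ a) - (x - a) * (φ b - φ x)) / (b - a) := by
    field_simp
    ring
  rcases hax.eq_or_lt with rfl | hax'
  · have e0 : φ a - ((b - a) * φ a + (a - a) * φ b) / (b - a) = 0 := by field_simp; ring
    rw [e0]
    simp only [abs_zero, zero_mul]
    exact ⟨by positivity, by positivity, by positivity⟩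
  rcases hxb.eq_or_lt with rfl | hxb'
  · have e0 : φ x - ((x - x) * φ a + (x - a) * φ x) / (x - a) = 0 := by field_simp; ring
    rw [e0]
    simp only [abs_zero, zero_mul]
    exact ⟨by positivity, by positivity, by positivity⟩
  obtain ⟨ξ, hξ, e1⟩ := h.slope hax'
  obtain ⟨η, hη, e2⟩ := h.slope hxb'
  have e3 : φ x - ((b - x) * φ a + (x - a) * φ b) / (b - a) =
      (b - x) * (x - a) / (b - a) * (dφ ξ - dφ η) := by
    rw [e, e1, e2]; ring
  have k0 : (b - x) * (x - a) / (b - a) ≤ b - a := by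
    rw [div_le_iff₀ hl]
    nlinarith
  have k0' : 0 ≤ (b - x) * (x - a) / (b - a) := by
    apply div_nonneg (mul_nonneg (by linarith) (by linarith)) hl.le
  refine ⟨?_, ?_, ?_⟩
  · rw [e3, abs_mul, abs_of_nonneg k0']
    have := h.h1 ξ
    have := h.h1 η
    have := abs_sub (dφ ξ) (dφ η)
    calc (b - x) * (x - a) / (b - a) * |dφ ξ - dφ η| ≤ (b - a) * (2 * ε) := by
          gcongr
          linarith
      _ = _ := by ring
  · have k1 : 0 ≤ ((b - x) * φ a + (x - a) * φ b) / (b - a) := by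
      apply div_nonneg _ hl.le
      exact add_nonneg (mul_nonneg (by linarith) (h.h0 a)) (mul_nonneg (by linarith) (h.h0 b))
    have k2 : ((b - x) * φ a + (x - a) * φ b) / (b - a) ≤ 2 * ε / A := by
      rw [div_le_iff₀ hl]
      calc (b - x) * φ a + (x - a) * φ b ≤ (b - x) * (2 * ε / A) + (x - a) * (2 * ε / A) := by
            gcongr
            · exact h.h0' a
            · exact h.h0' b
        _ = _ := by ring
    have k3 : |φ x - ((b - x) * φ a + (x - a) * φ b) / (b - a)| ≤ 2 * ε / A := by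
      rw [abs_le]
      constructor <;> linarith [h.h0 x, h.h0' x]
    calc |φ x - ((b - x) * φ a + (x - a) * φ b) / (b - a)| * A ≤ 2 * ε / A * A := by gcongr
      _ = 2 * ε := by field_simp
  · rw [e3, abs_mul, abs_of_nonneg k0']
    have k1 : |ξ - η| ≤ b - a := by
      rw [abs_le]
      constructor <;> linarith [hξ.1, hξ.2, hη.1, hη.2]
    calc (b - x) * (x - a) / (b - a) * |dφ ξ - dφ η| ≤ (b - a) * (ε * A * (b - a)) := by
          gcongr
          exact (h.h2 ξ η).trans (by gcongr)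
      _ ≤ 2 * ε * A * (b - a) ^ 2 := by
        have : 0 ≤ ε * A * (b - a) ^ 2 := by positivity
        nlinarith

/-! ### The building blocks -/

noncomputable def cl (y : ℝ) : ℝ := max 0 (min y (2 * π))

noncomputable def ph (A : ℕ) (x : ℝ) : ℝ := 1 / (64 * A) * (1 - cos (A * cl x))

noncomputable def dph (A : ℕ) (x : ℝ) : ℝ := 1 / 64 * sin (A * cl x)

theorem cl_lip (x y : ℝ) : |cl x - cl y| ≤ |x - y| := by
  unfold cl
  have h1 := abs_max_sub_max_le_max 0 (min x (2 * π)) 0 (min y (2 * π))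
  have h2 := abs_min_sub_min_le_max x (2 * π) y (2 * π)
  simp only [sub_self, abs_zero] at h1 h2
  refine h1.trans (max_le (abs_nonneg _) (h2.trans (max_le le_rfl (abs_nonneg _))))

theorem sin_pi (A : ℕ) : sin (A * (2 * π)) = 0 := by
  have := Real.sin_nat_mul_pi (2 * A)
  push_cast at this
  rw [show (A : ℝ) * (2 * π) = 2 * A * π by ring]
  exact this

theorem cos_pi (A : ℕ) : cos (A * (2 * π)) = 1 := Real.cos_nat_mul_two_pi A

theorem hasDerivAt_ph (A : ℕ) (hA : 1 ≤ A) (x : ℝ) : HasDerivAt (ph A) (dph A x) x := by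
  have hA0 : (A : ℝ) ≠ 0 := by positivity
  have c0 : Continuous fun u : ℝ => 1 / (64 * (A : ℝ)) * (1 - cos (A * max 0 u)) := by fun_prop
  have c1 : Continuous fun u : ℝ => 1 / 64 * sin (A * max 0 u) := by fun_prop
  have base : ∀ u : ℝ, HasDerivAt (fun u : ℝ => 1 / (64 * (A : ℝ)) * (1 - cos (A * u)))
      (1 / 64 * sin (A * u)) u := by
    intro u
    have h1 : HasDerivAt (fun u : ℝ => (A : ℝ) * u) ((A : ℝ) * 1) u :=
      (hasDerivAt_id u).const_mul (A : ℝ)
    have h2 := ((h1.cos.const_sub 1).const_mul (1 / (64 * (A : ℝ))))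
    refine h2.congr_deriv ?_
    field_simp
  have h1 : ∀ u : ℝ, HasDerivAt (fun u : ℝ => 1 / (64 * (A : ℝ)) * (1 - cos (A * max 0 u)))
      (1 / 64 * sin (A * max 0 u)) u := by
    intro u
    rcases lt_trichotomy u 0 with hu | rfl | hu
    · have e : (fun u : ℝ => 1 / (64 * (A : ℝ)) * (1 - cos (A * max 0 u))) =ᶠ[nhds u] fun _ => 0 := by
        filter_upwards [Iio_mem_nhds hu] with v hv
        have hv' : max 0 v = 0 := max_eq_left (le_of_lt hv)
        simp [hv']
      have hu' : max 0 u = 0 := max_eq_left hu.le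
      simp only [hu', mul_zero, sin_zero]
      exact (hasDerivAt_const u (0 : ℝ)).congr_of_eventuallyEq e
    · refine hasDerivAt_of_hasDerivAt_of_ne (g := fun u : ℝ => 1 / 64 * sin (A * max 0 u)) ?_
        c0.continuousAt c1.continuousAt
      intro y hy
      rcases lt_or_gt_of_ne hy with hu | hu
      · have e : (fun u : ℝ => 1 / (64 * (A : ℝ)) * (1 - cos (A * max 0 u))) =ᶠ[nhds y] fun _ => 0 := by
          filter_upwards [Iio_mem_nhds hu] with v hv
          have hv' : max 0 v = 0 := max_eq_left (le_of_lt hv)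
          simp [hv']
        have hu' : max 0 y = 0 := max_eq_left hu.le
        simp only [hu', mul_zero, sin_zero]
        exact (hasDerivAt_const y (0 : ℝ)).congr_of_eventuallyEq e
      · have e : (fun u : ℝ => 1 / (64 * (A : ℝ)) * (1 - cos (A * max 0 u))) =ᶠ[nhds y]
            (fun u : ℝ => 1 / (64 * (A : ℝ)) * (1 - cos (A * u))) := by
          filter_upwards [Ioi_mem_nhds hu] with v hv
          have hv' : max 0 v = v := max_eq_right (le_of_lt hv)
          simp [hv']
        have hu' : max 0 y = y := max_eq_right (le_of_lt hu)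
        simp only [hu']
        exact (base y).congr_of_eventuallyEq e
    · have e : (fun u : ℝ => 1 / (64 * (A : ℝ)) * (1 - cos (A * max 0 u))) =ᶠ[nhds u]
          (fun u : ℝ => 1 / (64 * (A : ℝ)) * (1 - cos (A * u))) := by
        filter_upwards [Ioi_mem_nhds hu] with v hv
        have hv' : max 0 v = v := max_eq_right (le_of_lt hv)
        simp [hv']
      have hu' : max 0 u = u := max_eq_right (le_of_lt hu)
      simp only [hu']
      exact (base u).congr_of_eventuallyEq e
  have c2 : Continuous (ph A) := by unfold ph cl; fun_prop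
  have c3 : Continuous (dph A) := by unfold dph cl; fun_prop
  have hp : (0 : ℝ) < 2 * π := by positivity
  have hne : ∀ y ≠ 2 * π, HasDerivAt (ph A) (dph A y) y := by
    intro y hy
    rcases lt_or_gt_of_ne hy with hu | hu
    · have e : ph A =ᶠ[nhds y] (fun u : ℝ => 1 / (64 * (A : ℝ)) * (1 - cos (A * max 0 u))) := by
        filter_upwards [Iio_mem_nhds hu] with v hv
        have hv' : min v (2 * π) = v := min_eq_left (le_of_lt hv)
        simp [ph, cl, hv']
      have hu' : dph A y = 1 / 64 * sin (A * max 0 y) := by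
        simp [dph, cl, min_eq_left hu.le]
      rw [hu']
      exact (h1 y).congr_of_eventuallyEq e
    · have e : ph A =ᶠ[nhds y] (fun _ : ℝ => 0) := by
        filter_upwards [Ioi_mem_nhds hu] with v hv
        have hv' : min v (2 * π) = 2 * π := min_eq_right (le_of_lt hv)
        simp only [ph, cl, hv', max_eq_right hp.le, cos_pi]
        ring
      have hu' : dph A y = 0 := by
        simp only [dph, cl, min_eq_right hu.le, max_eq_right hp.le, sin_pi]
        ring
      rw [hu']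
      exact (hasDerivAt_const y (0 : ℝ)).congr_of_eventuallyEq e
  by_cases hx : x = 2 * π
  · subst hx
    exact hasDerivAt_of_hasDerivAt_of_ne hne c2.continuousAt c3.continuousAt
  · exact hne x hx

theorem bd_ph (A : ℕ) (hA : 1 ≤ A) : Bd (ph A) (dph A) A (1 / 64) := by
  have hA0 : (0 : ℝ) < A := by exact_mod_cast hA
  refine ⟨hasDerivAt_ph A hA, ?_, ?_, ?_, ?_⟩
  · intro x
    unfold ph
    have := cos_le_one (A * cl x)
    have : 0 ≤ 1 - cos (A * cl x) := by linarith
    positivity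
  · intro x
    unfold ph
    have := neg_one_le_cos (A * cl x)
    calc 1 / (64 * (A : ℝ)) * (1 - cos (A * cl x)) ≤ 1 / (64 * (A : ℝ)) * 2 := by
          gcongr
          linarith
      _ = _ := by field_simp
  · intro x
    unfold dph
    rw [abs_mul, abs_of_pos (by norm_num : (0 : ℝ) < 1 / 64)]
    have := abs_sin_le_one (A * cl x)
    linarith
  · intro x y
    unfold dph
    rw [← mul_sub, abs_mul, abs_of_pos (by norm_num : (0 : ℝ) < 1 / 64), mul_assoc]
    gcongr
    have h1 : |sin (A * cl x) - sin (A * cl y)| ≤ |(A : ℝ) * cl x - A * cl y| := by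
      have := Real.lipschitzWith_sin.dist_le_mul (A * cl x) (A * cl y)
      simpa [Real.dist_eq] using this
    refine h1.trans ?_
    rw [← mul_sub, abs_mul, abs_of_pos hA0]
    exact mul_le_mul_of_nonneg_left (cl_lip x y) hA0.le

end Pool.Agent.Q95.SN
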