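import Pool.Agent.Q95.SN.Curve

set_option autoImplicit false

namespace Pool.Agent.Q95.SN

open Real Set MeasureTheory
open scoped ENNReal

theorem null_affine {c d : ℝ} (hc : c ≠ 0) {a b : ℝ → ℝ} (ha : ∀ x, a x ≠ 0) (hma : Measurable a)
    (hmb : Measurable b) {N : Set (ℝ × ℝ)} (hN : MeasurableSet N) (h0 : volume N = 0) :
    volume {P : ℝ × ℝ | (c * P.1 + d, a P.1 * P.2 + b P.1) ∈ N} = 0 := by
  have hm : Measurable fun P : ℝ × ℝ => (c * P.1 + d, a P.1 * P.2 + b P.1) := by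
    refine Measurable.prodMk (by fun_prop) ?_
    exact ((hma.comp measurable_fst).mul measurable_snd).add (hmb.comp measurable_fst)
  rw [Measure.volume_eq_prod] at h0 ⊢
  have e0 : {P : ℝ × ℝ | (c * P.1 + d, a P.1 * P.2 + b P.1) ∈ N} =
      (fun P : ℝ × ℝ => (c * P.1 + d, a P.1 * P.2 + b P.1)) ⁻¹' N := rfl
  rw [e0, Measure.measure_prod_null (hm hN)]
  have h1 : ∀ᵐ x ∂(volume : Measure ℝ), volume (Prod.mk x ⁻¹' N) = 0 :=
    (Measure.measure_prod_null hN).1 h0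
  have h2 : ∀ᵐ x ∂(volume : Measure ℝ), volume (Prod.mk (c * x + d) ⁻¹' N) = 0 := by
    rw [ae_iff] at h1 ⊢
    have e1 : {x : ℝ | ¬ volume (Prod.mk (c * x + d) ⁻¹' N) = 0} =
        (fun x => c * x) ⁻¹' ((fun y => y + d) ⁻¹' {x : ℝ | ¬ volume (Prod.mk x ⁻¹' N) = 0}) := rfl
    rw [e1, Real.volume_preimage_mul_left hc, measure_preimage_add_right, h1, mul_zero]
  filter_upwards [h2] with x hx
  have e2 : (Prod.mk x ⁻¹' ((fun P : ℝ × ℝ => (c * P.1 + d, a P.1 * P.2 + b P.1)) ⁻¹' N)) =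
      (fun y => a x * y) ⁻¹' ((fun y => y + b x) ⁻¹' (Prod.mk (c * x + d) ⁻¹' N)) := rfl
  rw [e2, Real.volume_preimage_mul_left (ha x), measure_preimage_add_right, hx, mul_zero]
  rfl

theorem measurable_tau : Measurable tau := by
  unfold tau
  have h1 := continuous_f.measurable
  have h2 := continuous_wt.measurable
  fun_prop

theorem measurable_cr : Measurable fun z : ((ℝ × ℝ) × (ℝ × ℝ)) × ℝ => cr z.1.1 z.1.2 z.2 := by
  unfold cr ys ts xs
  have h1 := continuous_f.measurable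
  have h2 := continuous_wt.measurable
  have h3 := measurable_tau
  fun_prop

theorem ae_curve {N : Set (ℝ × ℝ)} (hN : MeasurableSet N) (h0 : volume N = 0) :
    ∀ᵐ z ∂((volume : Measure (ℝ × ℝ)).prod (volume : Measure (ℝ × ℝ))),
      ∀ᵐ s ∂(volume.restrict (Icc (0 : ℝ) 1)), cr z.1 z.2 s ∉ N := by
  refine (Measure.ae_ae_comm (μ := (volume : Measure (ℝ × ℝ)).prod (volume : Measure (ℝ × ℝ)))
    (ν := volume.restrict (Icc (0 : ℝ) 1)) (p := fun z s => cr z.1 z.2 s ∉ N)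
    (measurable_cr hN).compl).2 ?_
  have hne : ∀ᵐ s ∂(volume.restrict (Icc (0 : ℝ) 1)), s ≠ 0 := by
    apply ae_restrict_of_ae
    rw [ae_iff]
    simp
  filter_upwards [hne] with s hs
  rw [ae_iff]
  simp only [not_not]
  have hms : MeasurableSet {z : (ℝ × ℝ) × (ℝ × ℝ) | cr z.1 z.2 s ∈ N} := by
    have : Measurable fun z : (ℝ × ℝ) × (ℝ × ℝ) => cr z.1 z.2 s :=
      measurable_cr.comp (measurable_id.prodMk measurable_const)
    exact this hN
  rw [Measure.measure_prod_null hms]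
  refine Filter.Eventually.of_forall fun P => ?_
  have hw := wt_pos
  have h1 := continuous_f.measurable
  have h2 := continuous_wt.measurable
  have := null_affine (c := s) (d := (1 - s) * P.1) hs
    (a := fun x => s * wt (s * x + (1 - s) * P.1) / wt x)
    (b := fun x => f (s * x + (1 - s) * P.1) + ((1 - s) * tau P - s * f x / wt x) *
      wt (s * x + (1 - s) * P.1))
    (fun x => div_ne_zero (mul_ne_zero hs (hw _).ne') (hw x).ne')
    (by fun_prop) (by fun_prop) hN h0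
  refine Eq.trans (congrArg _ (Set.ext fun Q => ?_)) this
  have e : cr P Q s = (s * Q.1 + (1 - s) * P.1, s * wt (s * Q.1 + (1 - s) * P.1) / wt Q.1 * Q.2 +
      (f (s * Q.1 + (1 - s) * P.1) + ((1 - s) * tau P - s * f Q.1 / wt Q.1) *
      wt (s * Q.1 + (1 - s) * P.1))) := by
    have e1 : xs P Q s = s * Q.1 + (1 - s) * P.1 := by unfold xs; ring
    have := (hw Q.1).ne'
    unfold cr ys
    rw [e1]
    ext
    · rfl
    · simp only [ts]
      have e2 : tau Q = (Q.2 - f Q.1) / wt Q.1 := rfl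
      rw [e2]
      field_simp
      ring
  simp only [mem_preimage, Set.mem_ofPred_eq, e]

theorem poinc_abs {α : Type*} [MeasurableSpace α] (μ : Measure α) [IsFiniteMeasure μ] (hμ : μ ≠ 0)
    (u : α → ℝ) (hu : AEStronglyMeasurable u μ) (M K : ℝ≥0∞) (hM : M ≠ ∞) (hK : K ≠ ∞)
    (l : α × α → ℝ≥0∞) (hl : ∀ᵐ z ∂(μ.prod μ), ‖u z.1 - u z.2‖ₑ ≤ M * l z)
    (hI : ∫⁻ z, l z ∂(μ.prod μ) ≤ K * μ univ * μ univ) :
    ∫⁻ p, ‖u p - ⨍ q, u q ∂μ‖ₑ ∂μ ≤ K * M * μ univ := by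
  have hfin : μ univ ≠ ∞ := measure_ne_top μ univ
  have hpos : μ univ ≠ 0 := by simpa using hμ
  have : NeZero μ := ⟨hμ⟩
  have hF : AEMeasurable (fun z : α × α => ‖u z.1 - u z.2‖ₑ) (μ.prod μ) := by
    exact ((hu.comp_fst).sub (hu.comp_snd)).enorm
  have h1 : ∫⁻ z, ‖u z.1 - u z.2‖ₑ ∂(μ.prod μ) ≤ M * (K * μ univ * μ univ) := by
    calc ∫⁻ z, ‖u z.1 - u z.2‖ₑ ∂(μ.prod μ) ≤ ∫⁻ z, M * l z ∂(μ.prod μ) := lintegral_mono_ae hl
      _ = M * ∫⁻ z, l z ∂(μ.prod μ) := lintegral_const_mul' M l hM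
      _ ≤ _ := by gcongr
  have h1fin : M * (K * μ univ * μ univ) < ∞ := by
    refine ENNReal.mul_lt_top hM.lt_top (ENNReal.mul_lt_top (ENNReal.mul_lt_top hK.lt_top hfin.lt_top) hfin.lt_top)
  have h2 : ∫⁻ z, ‖u z.1 - u z.2‖ₑ ∂(μ.prod μ) = ∫⁻ p, ∫⁻ q, ‖u p - u q‖ₑ ∂μ ∂μ :=
    lintegral_prod _ hF
  have hint : Integrable u μ := by
    have h3 : ∀ᵐ p ∂μ, ∫⁻ q, ‖u p - u q‖ₑ ∂μ < ∞ := by
      refine ae_lt_top' hF.lintegral_prod_right' ?_
      rw [← h2]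
      exact (h1.trans_lt h1fin).ne
    obtain ⟨p, hp⟩ := h3.exists
    have h4 : Integrable (fun q => u p - u q) μ := ⟨aestronglyMeasurable_const.sub hu, hp⟩
    have h5 : Integrable (fun q => u p - (u p - u q)) μ := (integrable_const (u p)).sub h4
    simpa using h5
  have h6 : ∀ p, ‖u p - ⨍ q, u q ∂μ‖ₑ ≤ (μ univ)⁻¹ * ∫⁻ q, ‖u p - u q‖ₑ ∂μ := by
    intro p
    have e1 : u p - ⨍ q, u q ∂μ = ⨍ q, (u p - u q) ∂μ := by
      rw [average_eq, average_eq, integral_sub (integrable_const _) hint, integral_const, smul_sub,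
        smul_smul]
      have : (μ.real univ) ≠ 0 := by
        rw [Measure.real, ENNReal.toReal_ne_zero]
        exact ⟨hpos, hfin⟩
      rw [inv_mul_cancel₀ this, one_smul]
    rw [e1]
    unfold average
    refine (enorm_integral_le_lintegral_enorm _).trans (le_of_eq ?_)
    rw [lintegral_smul_measure]
    rfl
  calc ∫⁻ p, ‖u p - ⨍ q, u q ∂μ‖ₑ ∂μ ≤ ∫⁻ p, (μ univ)⁻¹ * ∫⁻ q, ‖u p - u q‖ₑ ∂μ ∂μ :=
        lintegral_mono h6
    _ = (μ univ)⁻¹ * ∫⁻ p, ∫⁻ q, ‖u p - u q‖ₑ ∂μ ∂μ :=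
        lintegral_const_mul' _ _ (ENNReal.inv_ne_top.2 hpos)
    _ ≤ (μ univ)⁻¹ * (M * (K * μ univ * μ univ)) := by
        gcongr
        rw [← h2]; exact h1
    _ = K * M * μ univ * ((μ univ)⁻¹ * μ univ) := by ring
    _ = K * M * μ univ := by rw [ENNReal.inv_mul_cancel hpos hfin, mul_one]

end Pool.Agent.Q95.SN
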