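import Pool.Agent.Q95.SN.Fub

set_option autoImplicit false

namespace Pool.Agent.Q95.SN

open Real Set MeasureTheory
open scoped ENNReal

theorem dist_ptE_le (P Q : ℝ × ℝ) : dist (ptE P) (ptE Q) ≤ |P.1 - Q.1| + |P.2 - Q.2| := by
  rw [dist_ptE, Real.sqrt_le_left (by positivity)]
  have h1 := sq_abs (P.1 - Q.1)
  have h2 := sq_abs (P.2 - Q.2)
  nlinarith [mul_nonneg (abs_nonneg (P.1 - Q.1)) (abs_nonneg (P.2 - Q.2))]

/-- The part of the ball in the domain, in coordinates. -/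
def Bs (p : ℝ × ℝ) (r : ℝ) : Set (ℝ × ℝ) := {P | P ∈ dom ∧ (P.1 - p.1) ^ 2 + (P.2 - p.2) ^ 2 < r ^ 2}

theorem Bs_eq (p : ℝ × ℝ) {r : ℝ} (hr : 0 < r) : Bs p r = ptE ⁻¹' (Metric.ball (ptE p) r ∩ Om) := by
  ext P
  simp only [Bs, Set.mem_ofPred_eq, mem_preimage, mem_inter_iff, Metric.mem_ball, dist_ptE_lt hr,
    mem_Om]
  tauto

theorem isOpen_Bs (p : ℝ × ℝ) (r : ℝ) : IsOpen (Bs p r) := by
  have a1 : IsOpen {P : ℝ × ℝ | (P.1 - p.1) ^ 2 + (P.2 - p.2) ^ 2 < r ^ 2} :=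
    isOpen_lt (by fun_prop) (by fun_prop)
  exact isOpen_dom.inter a1

theorem Bs_abs {p P : ℝ × ℝ} {r : ℝ} (hr : 0 < r) (hP : P ∈ Bs p r) :
    |P.1 - p.1| < r ∧ |P.2 - p.2| < r := by
  have h := hP.2
  constructor
  · apply abs_lt_of_sq_lt_sq _ hr.le
    nlinarith [sq_nonneg (P.2 - p.2)]
  · apply abs_lt_of_sq_lt_sq _ hr.le
    nlinarith [sq_nonneg (P.1 - p.1)]

theorem chord_s (a b : ℝ) {s : ℝ} (hs : s ∈ Icc (0 : ℝ) 1) :
    |f ((1 - s) * a + s * b) - ((1 - s) * f a + s * f b)| ≤ |b - a| := by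
  obtain ⟨h0, h1⟩ := hs
  rcases lt_trichotomy a b with h | rfl | h
  · have hd : 0 < b - a := by linarith
    have := chord (x := (1 - s) * a + s * b) h (by nlinarith) (by nlinarith)
    rw [abs_of_pos hd]
    refine le_trans (le_of_eq ?_) this
    congr 2
    field_simp
    ring
  · have e : (1 - s) * a + s * a = a := by ring
    rw [e]
    have e2 : f a - ((1 - s) * f a + s * f a) = 0 := by ring
    rw [e2]
    simp
  · have hd : 0 < a - b := by linarith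
    have := chord (x := (1 - s) * a + s * b) h (by nlinarith) (by nlinarith)
    rw [abs_sub_comm b a, abs_of_pos hd]
    refine le_trans (le_of_eq ?_) this
    congr 2
    field_simp
    ring

theorem wt_lip {x y : ℝ} (hx : x ≤ 0) (hy : y ≤ 0) : |wt x - wt y| ≤ 1 / 8 * |x - y| := by
  have hc : Convex ℝ (Iic (0 : ℝ)) := convex_Iic _
  have := hc.norm_image_sub_le_of_norm_hasDerivWithin_le (f := wt) (f' := dwt) (C := 1 / 8)
    (fun u hu => (hasDerivAt_wt u).hasDerivWithinAt) (fun u hu => ?_) hy hx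
  · simpa [Real.norm_eq_abs] using this
  · rw [Real.norm_eq_abs, abs_of_nonneg (dwt_nonneg u)]
    exact dwt_small hu

theorem tau_mul (P : ℝ × ℝ) : P.2 = f P.1 + tau P * wt P.1 := by
  unfold tau
  have := (wt_pos P.1).ne'
  field_simp
  ring

/-- the connecting curves stay in the ball of radius `5 r` -/
theorem cr_ball {p P Q : ℝ × ℝ} {r : ℝ} (hr : 0 < r) (hP : P ∈ Bs p r) (hQ : Q ∈ Bs p r) {s : ℝ}
    (hs : s ∈ Icc (0 : ℝ) 1) : cr P Q s ∈ Bs p (5 * r) := by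
  refine ⟨cr_mem hP.1 hQ.1 hs, ?_⟩
  have h1 := Bs_abs hr hP
  have h2 := Bs_abs hr hQ
  obtain ⟨h0, h1'⟩ := id hs
  rw [abs_lt, abs_lt] at h1 h2
  have hx : |xs P Q s - p.1| < r := by
    have := (xs_mem (P := P) (Q := Q) (a := min P.1 Q.1) (b := max P.1 Q.1)
      ⟨min_le_left _ _, le_max_left _ _⟩ ⟨min_le_right _ _, le_max_right _ _⟩ hs)
    rw [abs_lt]
    constructor
    · have : p.1 - r < min P.1 Q.1 := lt_min (by linarith [h1.1.1]) (by linarith [h2.1.1])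
      linarith [(xs_mem (P := P) (Q := Q) (a := min P.1 Q.1) (b := max P.1 Q.1)
        ⟨min_le_left _ _, le_max_left _ _⟩ ⟨min_le_right _ _, le_max_right _ _⟩ hs).1]
    · have : max P.1 Q.1 < p.1 + r := max_lt (by linarith [h1.1.2]) (by linarith [h2.1.2])
      linarith [(xs_mem (P := P) (Q := Q) (a := min P.1 Q.1) (b := max P.1 Q.1)
        ⟨min_le_left _ _, le_max_left _ _⟩ ⟨min_le_right _ _, le_max_right _ _⟩ hs).2]
  have hd : |Q.1 - P.1| < 2 * r := by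
    rw [abs_lt]; constructor <;> linarith [h1.1.1, h1.1.2, h2.1.1, h2.1.2]
  have e1 := chord_s P.1 Q.1 hs
  have tP := tau_mem hP.1
  have tQ := tau_mem hQ.1
  have hxn := (xs_neg hP.1.1 hQ.1.1 hs).le
  have e2 : |wt (xs P Q s) - wt P.1| ≤ 1 / 8 * |Q.1 - P.1| := by
    refine (wt_lip hxn hP.1.1.le).trans ?_
    have : xs P Q s - P.1 = s * (Q.1 - P.1) := by unfold xs; ring
    rw [this, abs_mul, abs_of_nonneg h0]
    nlinarith [abs_nonneg (Q.1 - P.1)]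
  have e3 : |wt (xs P Q s) - wt Q.1| ≤ 1 / 8 * |Q.1 - P.1| := by
    refine (wt_lip hxn hQ.1.1.le).trans ?_
    have : xs P Q s - Q.1 = -((1 - s) * (Q.1 - P.1)) := by unfold xs; ring
    rw [this, abs_neg, abs_mul, abs_of_nonneg (by linarith : (0 : ℝ) ≤ 1 - s)]
    nlinarith [abs_nonneg (Q.1 - P.1)]
  have e4 : ys P Q s - p.2 = (f (xs P Q s) - ((1 - s) * f P.1 + s * f Q.1)) +
      ((1 - s) * tau P) * (wt (xs P Q s) - wt P.1) + (s * tau Q) * (wt (xs P Q s) - wt Q.1) +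
      ((1 - s) * (P.2 - p.2) + s * (Q.2 - p.2)) := by
    have hP2 := tau_mul P
    have hQ2 := tau_mul Q
    unfold ys ts
    linear_combination -(1 - s) * hP2 - s * hQ2
  have k1 : |f (xs P Q s) - ((1 - s) * f P.1 + s * f Q.1)| ≤ 2 * r := e1.trans hd.le
  have k2 : |((1 - s) * tau P) * (wt (xs P Q s) - wt P.1)| ≤ r / 4 := by
    rw [abs_mul, abs_of_nonneg (mul_nonneg (by linarith) tP.1.le)]
    have : (1 - s) * tau P ≤ 1 := by nlinarith [tP.1, tP.2]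
    have := abs_nonneg (wt (xs P Q s) - wt P.1)
    nlinarith [mul_nonneg (by linarith : (0 : ℝ) ≤ 1 - s) tP.1.le]
  have k3 : |(s * tau Q) * (wt (xs P Q s) - wt Q.1)| ≤ r / 4 := by
    rw [abs_mul, abs_of_nonneg (mul_nonneg h0 tQ.1.le)]
    have : s * tau Q ≤ 1 := by nlinarith [tQ.1, tQ.2]
    have := abs_nonneg (wt (xs P Q s) - wt Q.1)
    nlinarith [mul_nonneg h0 tQ.1.le]
  have k4 : |(1 - s) * (P.2 - p.2) + s * (Q.2 - p.2)| ≤ r := by
    rw [abs_le]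
    constructor
    · nlinarith [h1.2.1, h2.2.1]
    · nlinarith [h1.2.2, h2.2.2]
  have k5 : |ys P Q s - p.2| ≤ 4 * r := by
    rw [e4]
    rw [abs_le] at k1 k2 k3 k4 ⊢
    constructor <;> linarith [k1.1, k1.2, k2.1, k2.2, k3.1, k3.2, k4.1, k4.2]
  have e5 : (xs P Q s - p.1) ^ 2 ≤ r ^ 2 := by
    rw [← sq_abs]
    gcongr
  have e6 : (ys P Q s - p.2) ^ 2 ≤ (4 * r) ^ 2 := by
    rw [← sq_abs]
    gcongr
  show (xs P Q s - p.1) ^ 2 + (ys P Q s - p.2) ^ 2 < (5 * r) ^ 2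
  nlinarith [sq_pos_of_pos hr]

/-- small balls: the connecting curves have length at most `8 r` -/
theorem small_speed {p P Q : ℝ × ℝ} {r : ℝ} (hr : 0 < r) (hr2 : r ≤ exp p.1 / 2) (hp : p.1 ≤ 0)
    (hP : P ∈ Bs p r) (hQ : Q ∈ Bs p r) {s : ℝ} (hs : s ∈ Icc (0 : ℝ) 1) :
    |Q.1 - P.1| + |dys P Q s| ≤ 8 * r := by
  have h1 := Bs_abs hr hP
  have h2 := Bs_abs hr hQ
  rw [abs_lt, abs_lt] at h1 h2
  have he : exp p.1 ≤ 1 := exp_le_one_iff.2 hp
  have hr1 : r ≤ 1 := by linarith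
  have hd : |Q.1 - P.1| ≤ 2 * r := by
    rw [abs_le]; constructor <;> linarith [h1.1.1, h1.1.2, h2.1.1, h2.1.2]
  have tP := tau_mem hP.1
  have tQ := tau_mem hQ.1
  obtain ⟨ξ, hξ, e⟩ := exists_hasDerivAt_eq_slope (ys P Q) (dys P Q) (zero_lt_one)
    (fun z _ => (hasDerivAt_ys P Q z).continuousAt.continuousWithinAt) (fun z _ => hasDerivAt_ys P Q z)
  have hξ' : ξ ∈ Icc (0 : ℝ) 1 := ⟨hξ.1.le, hξ.2.le⟩
  have e0 : dys P Q ξ = Q.2 - P.2 := by
    rw [e]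
    have a1 : ys P Q 1 = Q.2 := congrArg Prod.snd (cr_one P Q)
    have a2 : ys P Q 0 = P.2 := congrArg Prod.snd (cr_zero P Q)
    rw [a1, a2]
    simp
  have hI : ∀ t ∈ Icc (0 : ℝ) 1, xs P Q t ∈ Icc (p.1 - 1) (p.1 + 1) := by
    intro t ht
    exact xs_mem ⟨by linarith [h1.1.1], by linarith [h1.1.2]⟩
      ⟨by linarith [h2.1.1], by linarith [h2.1.2]⟩ ht
  have hxx : |xs P Q s - xs P Q ξ| ≤ |Q.1 - P.1| := by
    have : xs P Q s - xs P Q ξ = (s - ξ) * (Q.1 - P.1) := by unfold xs; ring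
    rw [this, abs_mul]
    have : |s - ξ| ≤ 1 := by
      rw [abs_le]; constructor <;> linarith [hs.1, hs.2, hξ'.1, hξ'.2]
    nlinarith [abs_nonneg (Q.1 - P.1)]
  have k1 : |df (xs P Q s) - df (xs P Q ξ)| ≤ 1 := by
    refine (df_lip (hI s hs) (hI ξ hξ')).trans ?_
    calc exp (-p.1) * |xs P Q s - xs P Q ξ| ≤ exp (-p.1) * (2 * (exp p.1 / 2)) := by
          gcongr
          linarith
      _ = 1 := by
          rw [show (2 : ℝ) * (exp p.1 / 2) = exp p.1 by ring, ← exp_add]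
          simp
  have k2 : |wt (xs P Q s) - wt (xs P Q ξ)| ≤ 1 / 8 * |Q.1 - P.1| :=
    (wt_lip (xs_neg hP.1.1 hQ.1.1 hs).le (xs_neg hP.1.1 hQ.1.1 hξ').le).trans (by gcongr)
  have k3 : ∀ t ∈ Icc (0 : ℝ) 1, |ts P Q t * dwt (xs P Q t)| ≤ 1 / 8 := by
    intro t ht
    have a1 := ts_mem hP.1 hQ.1 ht
    have a2 := dwt_small (xs_neg hP.1.1 hQ.1.1 ht).le
    have a3 := dwt_nonneg (xs P Q t)
    rw [abs_of_nonneg (mul_nonneg a1.1.le a3)]
    nlinarith [a1.1, a1.2]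
  have k4 : |tau Q - tau P| ≤ 1 := by
    rw [abs_le]; constructor <;> linarith [tP.1, tP.2, tQ.1, tQ.2]
  have e1 : dys P Q s = dys P Q ξ + (df (xs P Q s) - df (xs P Q ξ)) * (Q.1 - P.1) +
      (tau Q - tau P) * (wt (xs P Q s) - wt (xs P Q ξ)) +
      (ts P Q s * dwt (xs P Q s)) * (Q.1 - P.1) - (ts P Q ξ * dwt (xs P Q ξ)) * (Q.1 - P.1) := by
    unfold dys; ring
  have b0 : |dys P Q ξ| ≤ 2 * r := by
    rw [e0, abs_le]; constructor <;> linarith [h1.2.1, h1.2.2, h2.2.1, h2.2.2]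
  have b1 : |(df (xs P Q s) - df (xs P Q ξ)) * (Q.1 - P.1)| ≤ 2 * r := by
    rw [abs_mul]
    calc _ ≤ 1 * (2 * r) := by gcongr
      _ = _ := by ring
  have b2 : |(tau Q - tau P) * (wt (xs P Q s) - wt (xs P Q ξ))| ≤ r / 4 := by
    rw [abs_mul]
    calc _ ≤ 1 * (1 / 8 * (2 * r)) := by
          gcongr
          exact k2.trans (by gcongr)
      _ = _ := by ring
  have b3 : |(ts P Q s * dwt (xs P Q s)) * (Q.1 - P.1)| ≤ r / 4 := by
    rw [abs_mul]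
    calc _ ≤ 1 / 8 * (2 * r) := by
          gcongr
          exact k3 s hs
      _ = _ := by ring
  have b4 : |(ts P Q ξ * dwt (xs P Q ξ)) * (Q.1 - P.1)| ≤ r / 4 := by
    rw [abs_mul]
    calc _ ≤ 1 / 8 * (2 * r) := by
          gcongr
          exact k3 ξ hξ'
      _ = _ := by ring
  have b5 : |dys P Q s| ≤ 5 * r := by
    rw [e1]
    rw [abs_le] at b0 b1 b2 b3 b4 ⊢
    constructor <;> linarith [b0.1, b0.2, b1.1, b1.2, b2.1, b2.2, b3.1, b3.2, b4.1, b4.2]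
  linarith

end Pool.Agent.Q95.SN
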