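import Mathlib

set_option autoImplicit false

namespace Pool.Agent.Q95.SN

open Real Set MeasureTheory Finset

theorem int_shift {F : ℝ → ℝ} (hp : Function.Periodic F (2 * π)) (θ : ℝ) :
    ∫ c in (0 : ℝ)..2 * π, F (c + θ) = ∫ c in (0 : ℝ)..2 * π, F c := by
  rw [intervalIntegral.integral_comp_add_right]
  have := hp.intervalIntegral_add_eq θ 0
  rw [zero_add, add_comm (2 * π) θ]
  rw [zero_add] at this
  exact this

theorem int_scale {G : ℝ → ℝ} (hG : Continuous G) (hp : Function.Periodic G (2 * π)) {B : ℕ} (hB : 1 ≤ B) :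
    ∫ c in (0 : ℝ)..2 * π, G (B * c) = ∫ c in (0 : ℝ)..2 * π, G c := by
  have hB0 : (B : ℝ) ≠ 0 := by positivity
  rw [intervalIntegral.integral_comp_mul_left _ hB0, mul_zero]
  have h1 : ∫ c in (0 : ℝ)..(B : ℝ) * (2 * π), G c = B * ∫ c in (0 : ℝ)..2 * π, G c := by
    have key : ∀ k : ℕ, ∫ c in (0 : ℝ)..(k : ℝ) * (2 * π), G c = k * ∫ c in (0 : ℝ)..2 * π, G c := by
      intro k
      induction k with
      | zero => simp
      | succ k ih =>
        have h2 : ∫ c in (k : ℝ) * (2 * π)..((k : ℝ) + 1) * (2 * π), G c = ∫ c in (0 : ℝ)..2 * π, G c := by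
          have := hp.intervalIntegral_add_eq ((k : ℝ) * (2 * π)) 0
          rw [zero_add] at this
          rw [← this]
          congr 1
          ring
        push_cast
        rw [← intervalIntegral.integral_add_adjacent_intervals
          (b := (k : ℝ) * (2 * π)) (hG.intervalIntegrable _ _) (hG.intervalIntegrable _ _), ih, h2]
        ring
    exact key B
  rw [h1, smul_eq_mul, ← mul_assoc, inv_mul_cancel₀ hB0, one_mul]

/-- orthogonality of `cos (j c)`, `sin (j c)` to the functions `G (B c)` -/
theorem ortho {G : ℝ → ℝ} (hG : Continuous G) (hp : Function.Periodic G (2 * π)) {B j : ℕ}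
    (hj : 1 ≤ j) (hjB : j < B) :
    ∫ c in (0 : ℝ)..2 * π, cos (j * c) * G (B * c) = 0 ∧
      ∫ c in (0 : ℝ)..2 * π, sin (j * c) * G (B * c) = 0 := by
  have hB0 : (0 : ℝ) < B := by
    have : 0 < B := by omega
    exact_mod_cast this
  set θ : ℝ := 2 * π / B with hθ
  have hGθ : ∀ c, G (B * (c + θ)) = G (B * c) := by
    intro c
    have : (B : ℝ) * (c + θ) = B * c + 2 * π := by rw [hθ]; field_simp
    rw [this, hp]
  have hpG : ∀ c, G (B * (c + 2 * π)) = G (B * c) := by
    intro c
    have : (B : ℝ) * (c + 2 * π) = B * c + B * (2 * π) := by ring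
    rw [this, hp.nat_mul]
  have hpc : Function.Periodic (fun c => cos (j * c) * G (B * c)) (2 * π) := by
    intro c
    simp only
    rw [hpG, mul_add, cos_add_nat_mul_two_pi]
  have hps : Function.Periodic (fun c => sin (j * c) * G (B * c)) (2 * π) := by
    intro c
    simp only
    rw [hpG, mul_add, sin_add_nat_mul_two_pi]
  set I1 := ∫ c in (0 : ℝ)..2 * π, cos (j * c) * G (B * c) with hI1
  set I2 := ∫ c in (0 : ℝ)..2 * π, sin (j * c) * G (B * c) with hI2
  have ic : IntervalIntegrable (fun c => cos (j * c) * G (B * c)) volume 0 (2 * π) :=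
    (by fun_prop : Continuous fun c : ℝ => cos (j * c) * G (B * c)).intervalIntegrable _ _
  have is : IntervalIntegrable (fun c => sin (j * c) * G (B * c)) volume 0 (2 * π) :=
    (by fun_prop : Continuous fun c : ℝ => sin (j * c) * G (B * c)).intervalIntegrable _ _
  have e1 : I1 = cos (j * θ) * I1 - sin (j * θ) * I2 := by
    calc I1 = ∫ c in (0 : ℝ)..2 * π, cos (j * (c + θ)) * G (B * (c + θ)) := (int_shift hpc θ).symm
      _ = ∫ c in (0 : ℝ)..2 * π, (cos (j * θ) * (cos (j * c) * G (B * c)) -
          sin (j * θ) * (sin (j * c) * G (B * c))) := by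
          congr 1
          ext c
          rw [hGθ, mul_add, cos_add]
          ring
      _ = _ := by
          rw [intervalIntegral.integral_sub (ic.const_mul _) (is.const_mul _),
            intervalIntegral.integral_const_mul, intervalIntegral.integral_const_mul]
  have e2 : I2 = sin (j * θ) * I1 + cos (j * θ) * I2 := by
    calc I2 = ∫ c in (0 : ℝ)..2 * π, sin (j * (c + θ)) * G (B * (c + θ)) := (int_shift hps θ).symm
      _ = ∫ c in (0 : ℝ)..2 * π, (sin (j * θ) * (cos (j * c) * G (B * c)) +
          cos (j * θ) * (sin (j * c) * G (B * c))) := by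
          congr 1
          ext c
          rw [hGθ, mul_add, sin_add]
          ring
      _ = _ := by
          rw [intervalIntegral.integral_add (ic.const_mul _) (is.const_mul _),
            intervalIntegral.integral_const_mul, intervalIntegral.integral_const_mul]
  have hne : cos (j * θ) ≠ 1 := by
    intro h
    rw [cos_eq_one_iff_of_lt_of_lt] at h
    · have : 0 < (j : ℝ) * θ := by positivity
      linarith
    · have : 0 < (j : ℝ) * θ := by positivity
      have := pi_pos
      linarith
    · rw [hθ, mul_div_assoc', div_lt_iff₀ hB0]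
      have : (j : ℝ) < B := by exact_mod_cast hjB
      nlinarith [pi_pos]
  have hsc := sin_sq_add_cos_sq (j * θ)
  set C := cos (j * θ) with hC
  set S := sin (j * θ) with hS
  have h1 : (1 - C) * I1 + S * I2 = 0 := by linarith
  have h2 : (1 - C) * I2 - S * I1 = 0 := by linarith
  have hC1 : 0 < 1 - C := by
    have := cos_le_one (j * θ)
    rcases this.lt_or_eq with h | h
    · linarith
    · exact absurd h hne
  have h3 : ((1 - C) ^ 2 + S ^ 2) * I1 = 0 := by linear_combination (1 - C) * h1 - S * h2
  have h4 : ((1 - C) ^ 2 + S ^ 2) * I2 = 0 := by linear_combination S * h1 + (1 - C) * h2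
  have hpos : (1 - C) ^ 2 + S ^ 2 ≠ 0 := by positivity
  exact ⟨(mul_eq_zero.1 h3).resolve_left hpos, (mul_eq_zero.1 h4).resolve_left hpos⟩

noncomputable def Ts (B m : ℕ) (c : ℝ) : ℝ := ∑ i ∈ range m, sin ((B : ℝ) ^ i * c)

theorem Ts_succ (B m : ℕ) (c : ℝ) : Ts B (m + 1) c = sin c + Ts B m (B * c) := by
  unfold Ts
  rw [Finset.sum_range_succ', pow_zero, one_mul, add_comm]
  congr 1
  refine Finset.sum_congr rfl fun i _ => ?_
  rw [pow_succ]
  congr 1
  ring

theorem continuous_Ts (B m : ℕ) : Continuous (Ts B m) := by unfold Ts; fun_prop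

theorem periodic_Ts (B m : ℕ) : Function.Periodic (Ts B m) (2 * π) := by
  intro c
  unfold Ts
  refine Finset.sum_congr rfl fun i _ => ?_
  have : (B : ℝ) ^ i * (c + 2 * π) = (B : ℝ) ^ i * c + ((B ^ i : ℕ) : ℝ) * (2 * π) := by push_cast; ring
  rw [this, sin_add_nat_mul_two_pi]

theorem moments {B : ℕ} (hB : 5 ≤ B) (m : ℕ) :
    ∫ c in (0 : ℝ)..2 * π, Ts B m c ^ 2 = π * m ∧
      ∫ c in (0 : ℝ)..2 * π, Ts B m c ^ 4 = 3 * π / 2 * m ^ 2 - 3 * π / 4 * m := by
  induction m with
  | zero => simp [Ts]
  | succ m ih =>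
    obtain ⟨ih2, ih4⟩ := ih
    set T := Ts B m with hT
    have hTc : Continuous T := continuous_Ts B m
    have hTp : Function.Periodic T (2 * π) := periodic_Ts B m
    have hT2c : Continuous fun c => T c ^ 2 := hTc.pow 2
    have hT2p : Function.Periodic (fun c => T c ^ 2) (2 * π) := fun c => by simp only [hTp c]
    have hT3c : Continuous fun c => T c ^ 3 := hTc.pow 3
    have hT3p : Function.Periodic (fun c => T c ^ 3) (2 * π) := fun c => by simp only [hTp c]
    have hT4c : Continuous fun c => T c ^ 4 := hTc.pow 4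
    have hT4p : Function.Periodic (fun c => T c ^ 4) (2 * π) := fun c => by simp only [hTp c]
    have h1c : Continuous fun _ : ℝ => (1 : ℝ) := continuous_const
    have h1p : Function.Periodic (fun _ : ℝ => (1 : ℝ)) (2 * π) := fun c => rfl
    have s2 := int_scale hT2c hT2p (B := B) (by omega)
    have s4 := int_scale hT4c hT4p (B := B) (by omega)
    have o1 := (ortho hTc hTp (B := B) (j := 1) le_rfl (by omega)).2
    have o3 := (ortho hTc hTp (B := B) (j := 3) (by omega) (by omega)).2
    have o2 := (ortho hT2c hT2p (B := B) (j := 2) (by omega) (by omega)).1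
    have o13 := (ortho hT3c hT3p (B := B) (j := 1) le_rfl (by omega)).2
    have c2 := (ortho h1c h1p (B := B) (j := 2) (by omega) (by omega)).1
    have c4 := (ortho h1c h1p (B := B) (j := 4) (by omega) (by omega)).1
    push_cast at o1 o3 o2 o13 c2 c4
    simp only [one_mul, mul_one] at o1 o3 o2 o13 c2 c4
    have cont : Continuous fun c : ℝ => T (B * c) := hTc.comp (continuous_const.mul continuous_id)
    constructor
    · have e : ∀ c, Ts B (m + 1) c ^ 2 = (1 / 2 - 1 / 2 * cos (2 * c)) + (2 * (sin c * T (B * c)) +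
          T (B * c) ^ 2) := by
        intro c
        rw [Ts_succ, ← hT]
        have := Real.sin_sq_eq_half_sub c
        linear_combination this
      simp only [e]
      rw [intervalIntegral.integral_add, intervalIntegral.integral_add,
        intervalIntegral.integral_sub, intervalIntegral.integral_const_mul,
        intervalIntegral.integral_const_mul, o1, c2, s2, ih2]
      · simp
        ring
      all_goals apply Continuous.intervalIntegrable; fun_prop
    · have e : ∀ c, Ts B (m + 1) c ^ 4 = (3 / 8 - 1 / 2 * cos (2 * c) + 1 / 8 * cos (4 * c)) +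
          ((3 * (sin c * T (B * c)) - sin (3 * c) * T (B * c)) +
          ((3 * T (B * c) ^ 2 - 3 * (cos (2 * c) * T (B * c) ^ 2)) +
          (4 * (sin c * T (B * c) ^ 3) + T (B * c) ^ 4))) := by
        intro c
        rw [Ts_succ, ← hT]
        have h2 : cos (2 * c) = 1 - 2 * sin c ^ 2 := by
          rw [cos_two_mul]
          have := sin_sq_add_cos_sq c
          linarith
        have h4 : cos (4 * c) = 1 - 8 * sin c ^ 2 + 8 * sin c ^ 4 := by
          rw [show (4 : ℝ) * c = 2 * (2 * c) by ring, cos_two_mul, h2]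
          ring
        have h3 : sin (3 * c) = 3 * sin c - 4 * sin c ^ 3 := sin_three_mul c
        rw [h2, h4, h3]
        ring
      simp only [e]
      rw [intervalIntegral.integral_add, intervalIntegral.integral_add, intervalIntegral.integral_add,
        intervalIntegral.integral_add, intervalIntegral.integral_add,
        intervalIntegral.integral_sub, intervalIntegral.integral_sub, intervalIntegral.integral_sub,
        intervalIntegral.integral_const_mul, intervalIntegral.integral_const_mul,
        intervalIntegral.integral_const_mul, intervalIntegral.integral_const_mul,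
        intervalIntegral.integral_const_mul, intervalIntegral.integral_const_mul, o1, o2, o3, o13, c2, c4,
        s2, s4, ih2, ih4]
      · simp
        ring
      all_goals apply Continuous.intervalIntegrable; fun_prop

theorem abs_ge {K y : ℝ} (hK : 0 < K) : 1 / K * y ^ 2 - 1 / (4 * K ^ 3) * y ^ 4 ≤ |y| := by
  have h1 : y ^ 2 = |y| ^ 2 := (sq_abs y).symm
  have h2 : y ^ 4 = |y| ^ 4 := by
    rw [show y ^ 4 = (y ^ 2) ^ 2 by ring, h1]; ring
  rw [h1, h2]
  have ha := abs_nonneg y
  set a := |y|
  have key : 0 ≤ a * (a ^ 3 + 4 * K ^ 3 - 4 * K ^ 2 * a) := by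
    apply mul_nonneg ha
    have e : a ^ 3 + 4 * K ^ 3 - 4 * K ^ 2 * a = (a - 6 / 5 * K) ^ 2 * (a + 12 / 5 * K) +
        (8 / 25 * K ^ 2 * a + 68 / 125 * K ^ 3) := by ring
    rw [e]
    positivity
  have e2 : 1 / K * a ^ 2 - 1 / (4 * K ^ 3) * a ^ 4 = a - a * (a ^ 3 + 4 * K ^ 3 - 4 * K ^ 2 * a) / (4 * K ^ 3) := by
    field_simp
    ring
  rw [e2]
  have : 0 ≤ a * (a ^ 3 + 4 * K ^ 3 - 4 * K ^ 2 * a) / (4 * K ^ 3) := by positivity
  linarith

theorem l1_lower {B : ℕ} (hB : 5 ≤ B) (m : ℕ) (hm : 1 ≤ m) :
    √m ≤ ∫ c in (0 : ℝ)..2 * π, |Ts B m c| := by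
  obtain ⟨h2, h4⟩ := moments hB m
  have hm0 : (0 : ℝ) < m := by exact_mod_cast hm
  have hK : 0 < √(m : ℝ) := Real.sqrt_pos.2 hm0
  have hsq : √(m : ℝ) ^ 2 = m := Real.sq_sqrt hm0.le
  set K := √(m : ℝ) with hKd
  have hTc := continuous_Ts B m
  have h1 : ∫ c in (0 : ℝ)..2 * π, (1 / K * Ts B m c ^ 2 - 1 / (4 * K ^ 3) * Ts B m c ^ 4) ≤
      ∫ c in (0 : ℝ)..2 * π, |Ts B m c| := by
    apply intervalIntegral.integral_mono_on (by positivity)
    · apply Continuous.intervalIntegrable; fun_prop
    · apply Continuous.intervalIntegrable; fun_prop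
    · intro c _
      exact abs_ge hK
  refine le_trans ?_ h1
  rw [intervalIntegral.integral_sub, intervalIntegral.integral_const_mul,
    intervalIntegral.integral_const_mul, h2, h4]
  · rw [← hsq]
    have e : 1 / K * (π * K ^ 2) - 1 / (4 * K ^ 3) * (3 * π / 2 * (K ^ 2) ^ 2 - 3 * π / 4 * K ^ 2) =
        5 * π / 8 * K + 3 * π / (16 * K) := by
      field_simp
      ring
    rw [e]
    have := pi_gt_three
    have : 0 < 3 * π / (16 * K) := by positivity
    nlinarith
  all_goals apply Continuous.intervalIntegrable; fun_prop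

end Pool.Agent.Q95.SN
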