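import Pool.Agent.Q95.SN.Est

set_option autoImplicit false

namespace Pool.Agent.Q95.SN

open Real Set MeasureTheory Metric
open scoped ENNReal NNReal

theorem pi_main {x : E2} (hx : x ∈ Om) {r : ℝ} (hr : 0 < r) (u : E2 → ℝ)
    (hu : LocallyIntegrableOn u Om) (g : E2 → ℝ≥0∞) (hg : Measurable g)
    (hug : ∀ (γ : ℝ → E2) (a b : ℝ) (K : ℝ≥0), a ≤ b → LipschitzOnWith K γ (Icc a b) →
      (∀ t ∈ Icc a b, γ t ∈ Om) → ‖u (γ a) - u (γ b)‖ₑ ≤ ∫⁻ t in Icc a b, g (γ t) * ‖deriv γ t‖ₑ) :
    ∫⁻ y in ball x r ∩ Om, ‖u y - ⨍ z in ball x r ∩ Om, u z‖ₑ ≤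
      ENNReal.ofReal (13 * r) * essSup g (volume.restrict (ball x (5 * r) ∩ Om)) *
        volume (ball x r ∩ Om) := by
  obtain ⟨p, rfl⟩ := ptE_surj x
  rw [mem_Om] at hx
  have hBm : MeasurableSet (Bs p r) := (isOpen_Bs p r).measurableSet
  have hBB : MeasurableSet (ball (ptE p) r ∩ Om) := measurableSet_ball.inter isOpen_Om.measurableSet
  have hBB5 : MeasurableSet (ball (ptE p) (5 * r) ∩ Om) :=
    measurableSet_ball.inter isOpen_Om.measurableSet
  have hvol : volume (ball (ptE p) r ∩ Om) = volume (Bs p r) := by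
    rw [Bs_eq p hr, ptE_mp.measure_preimage_emb ptE.measurableEmbedding]
  have hmp : MeasurePreserving ptE (volume.restrict (Bs p r)) (volume.restrict (ball (ptE p) r ∩ Om)) := by
    rw [Bs_eq p hr]
    exact ptE_mp.restrict_preimage_emb ptE.measurableEmbedding _
  set M := essSup g (volume.restrict (ball (ptE p) (5 * r) ∩ Om)) with hM
  by_cases hMt : M = ∞
  · rw [hMt, ENNReal.mul_top (by simpa using hr), ENNReal.top_mul]
    · exact le_top
    · rw [hvol]; exact (vol_Bs_pos hx hr).ne'
  · have hfin : IsFiniteMeasure (volume.restrict (Bs p r)) :=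
      ⟨by rw [Measure.restrict_apply_univ]; exact vol_Bs_lt_top hr⟩
    have hne : volume.restrict (Bs p r) ≠ 0 := by
      intro h
      have := (vol_Bs_pos hx hr).ne'
      rw [Measure.restrict_eq_zero] at h
      exact this h
    have hum : AEStronglyMeasurable (fun P => u (ptE P)) (volume.restrict (Bs p r)) := by
      have h1 : AEStronglyMeasurable u (volume.restrict (ball (ptE p) r ∩ Om)) :=
        hu.aestronglyMeasurable.mono_set inter_subset_right
      exact h1.comp_measurePreserving hmp
    have hl : ∀ᵐ z ∂((volume.restrict (Bs p r)).prod (volume.restrict (Bs p r))),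
        ‖u (ptE z.1) - u (ptE z.2)‖ₑ ≤ M * len z.1 z.2 := by
      set N : Set (ℝ × ℝ) := ptE ⁻¹' {y | y ∈ ball (ptE p) (5 * r) ∩ Om ∧ M < g y} with hN
      have hN0 : MeasurableSet {y | y ∈ ball (ptE p) (5 * r) ∩ Om ∧ M < g y} :=
        hBB5.inter (measurableSet_lt measurable_const hg)
      have hNm : MeasurableSet N := ptE.measurable hN0
      have hNv : volume N = 0 := by
        rw [hN, ptE_mp.measure_preimage_emb ptE.measurableEmbedding]
        have h1 : ∀ᵐ y ∂(volume.restrict (ball (ptE p) (5 * r) ∩ Om)), g y ≤ M := ae_le_essSup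
        rw [ae_restrict_iff' hBB5, ae_iff] at h1
        refine Eq.trans (congrArg _ (Set.ext fun y => ?_)) h1
        simp only [Set.mem_ofPred_eq]
        push Not
        rfl
      have hc := ae_curve hNm hNv
      rw [Measure.prod_restrict, ae_restrict_iff' (hBm.prod hBm)]
      filter_upwards [hc] with z hz hzB
      obtain ⟨K, hK⟩ := lip_cr z.1 z.2
      have h1 := hug (fun s => ptE (cr z.1 z.2 s)) 0 1 K zero_le_one hK
        (fun t ht => mem_Om.2 (cr_mem hzB.1.1 hzB.2.1 ht))
      simp only [cr_zero, cr_one] at h1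
      refine h1.trans ?_
      unfold len
      rw [← lintegral_const_mul' _ _ hMt]
      refine lintegral_mono_ae ?_
      filter_upwards [hz, ae_restrict_mem measurableSet_Icc] with s hs hsI
      gcongr
      by_contra hcon
      push Not at hcon
      apply hs
      have h2 := cr_ball hr hzB.1 hzB.2 hsI
      rw [Bs_eq p (by positivity : 0 < 5 * r)] at h2
      exact ⟨h2, hcon⟩
    have key := poinc_abs (volume.restrict (Bs p r)) hne (fun P => u (ptE P)) hum M
      (ENNReal.ofReal (13 * r)) hMt ENNReal.ofReal_ne_top (fun z => len z.1 z.2) hl (ball_est hx hr)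
    rw [Measure.restrict_apply_univ] at key
    have hav : ⨍ q, u (ptE q) ∂(volume.restrict (Bs p r)) =
        ⨍ z in ball (ptE p) r ∩ Om, u z := by
      rw [average_eq, average_eq, hmp.integral_comp ptE.measurableEmbedding]
      congr 2
      rw [Measure.real, Measure.real, Measure.restrict_apply_univ, Measure.restrict_apply_univ, hvol]
    rw [hvol]
    refine le_trans (le_of_eq ?_) key
    rw [← hmp.lintegral_comp_emb ptE.measurableEmbedding]
    rw [hav]

end Pool.Agent.Q95.SN
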