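import Pool.Agent.Q95.SN.Block

set_option autoImplicit false

namespace Pool.Agent.Q95.SN

open Real Set Finset

theorem fsmall {x y A : ℝ} (hA : 8 ≤ A) (hy : y ≤ 0) (hyA : y ≤ x + 2 * A) :
    f y * (4 * √(1 - x)) ≤ A / 2 := by
  obtain ⟨n, h, h'⟩ := loc (a := y) (b := y) (by linarith)
  rw [(h y ⟨le_rfl, le_rfl⟩).1]
  rcases h' with ⟨z, hz, h1, h2⟩ | h'
  · obtain rfl : z = y := le_antisymm hz.2 hz.1
    have hn : (0 : ℝ) ≤ n := by positivity
    have k1 : √(1 - x) ≤ 8 * ((n : ℝ) + 1) * A := by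
      rw [Real.sqrt_le_left (by positivity)]
      unfold X at h1 h2
      have e1 : (8 : ℝ) * 8 ≤ A * A := by nlinarith
      have e2 : 1 ≤ ((n : ℝ) + 1) ^ 2 := by nlinarith
      have e3 : ((n : ℝ) + 1) ^ 2 * 64 ≤ ((n : ℝ) + 1) ^ 2 * (A * A) := by
        gcongr
        linarith
      have e4 : A * A ≤ ((n : ℝ) + 1) ^ 2 * (A * A) := by
        nlinarith [mul_nonneg (by positivity : (0 : ℝ) ≤ A * A) (by linarith : (0 : ℝ) ≤ ((n : ℝ) + 1) ^ 2 - 1)]
      nlinarith
    calc gb n z * (4 * √(1 - x)) ≤ 1 / (1024 * ((n : ℝ) + 1)) * (4 * (8 * ((n : ℝ) + 1) * A)) := by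
          gcongr
          exact gb_le n z
      _ = A / 32 := by field_simp; norm_num
      _ ≤ A / 2 := by linarith
  · rw [(h' y ⟨le_rfl, le_rfl⟩).1]
    linarith

theorem fslope {x p q A : ℝ} (hA : 8 ≤ A) (hq0 : q ≤ 0) (hpq : p < q)
    (hqA : q ≤ x + 2 * A) (hs : 0 < √(1 - x)) (hl : A ≤ 4 * √(1 - x) * (q - p)) :
    |(f q - f p) / (q - p)| ≤ 1 / 2 := by
  have hd : 0 < q - p := by linarith
  rw [abs_div, abs_of_pos hd, div_le_iff₀ hd]
  have h1 := fsmall (x := x) (y := p) hA (by linarith) (by linarith)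
  have h2 := fsmall (x := x) (y := q) hA (by linarith) (by linarith)
  have h3 : f p ≤ 1 / 2 * (q - p) := by
    by_contra hcon
    push Not at hcon
    nlinarith
  have h4 : f q ≤ 1 / 2 * (q - p) := by
    by_contra hcon
    push Not at hcon
    nlinarith
  rw [abs_le]
  constructor <;> linarith [f_nonneg p, f_nonneg q]

theorem slopes {x z b : ℝ} (hxz : x < z) (hzb : z < b) (hb : b ≤ 0)
    (h1 : z - x ≤ 4 * √(1 - x) * (b - z)) (h2 : b - z ≤ 4 * √(1 - x) * (z - x)) :
    |(f z - f x) / (z - x) - (f b - f z) / (b - z)| ≤ 1 := by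
  have hs : 0 < √(1 - x) := Real.sqrt_pos.2 (by linarith)
  have d1 : 0 < z - x := by linarith
  have d2 : 0 < b - z := by linarith
  rcases le_or_gt b (x + 16) with hs' | hs'
  · obtain ⟨n, h, h'⟩ := loc hs'
    rw [(h z ⟨hxz.le, hzb.le⟩).1, (h x ⟨le_rfl, by linarith⟩).1, (h b ⟨by linarith, le_rfl⟩).1]
    rcases h' with ⟨y, hy, k1, k2⟩ | h'
    · have hB := B_ge n
      have hn : (0 : ℝ) ≤ n := by positivity
      have k3 : 4 * √(1 - x) ≤ Bq n := by
        have : √(1 - x) ≤ 7 * ((n : ℝ) + 1) := by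
          rw [Real.sqrt_le_left (by positivity)]
          unfold X at k1 k2
          nlinarith [hy.1, hy.2]
        rw [B_cast]
        linarith
      set a := min (z - x) (b - z) with ha
      have ha0 : 0 < a := lt_min d1 d2
      have ha3 : z - x ≤ Bq n * a := by
        rw [ha]
        rcases le_total (z - x) (b - z) with hh | hh
        · rw [min_eq_left hh]; nlinarith
        · rw [min_eq_right hh]
          exact h1.trans (by gcongr)
      have ha4 : b - z ≤ Bq n * a := by
        rw [ha]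
        rcases le_total (z - x) (b - z) with hh | hh
        · rw [min_eq_left hh]
          exact h2.trans (by gcongr)
        · rw [min_eq_right hh]; nlinarith
      have hd : ∀ i, _ := fun i => (bd_gb n i).adj (B := Bq n) (by positivity) (by norm_num) hxz hzb ha0
        (min_le_left _ _) (min_le_right _ _) ha3 ha4
      have e1 : |(gb n z - gb n x) / (z - x) - (gb n b - gb n z) / (b - z)| ≤
          ∑ i ∈ range (n + 1), |(ph (Bq n ^ (i + 1)) (z + X n) - ph (Bq n ^ (i + 1)) (x + X n)) / (z - x) -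
            (ph (Bq n ^ (i + 1)) (b + X n) - ph (Bq n ^ (i + 1)) (z + X n)) / (b - z)| := by
        refine le_trans (le_of_eq ?_) (Finset.abs_sum_le_sum_abs _ _)
        congr 1
        rw [Finset.sum_sub_distrib, ← Finset.sum_div, ← Finset.sum_div, Finset.sum_sub_distrib,
          Finset.sum_sub_distrib]
        rfl
      refine e1.trans ((tele (B := Bq n) (a := a) (c := 4 * (1 / 64)) (by linarith) ha0 (by norm_num) (n + 1) _
        (fun i => (hd i).1) (fun i => (hd i).2.1) (fun i => (hd i).2.2)).trans (by norm_num))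
    · rw [(h' z ⟨hxz.le, hzb.le⟩).1, (h' x ⟨le_rfl, by linarith⟩).1, (h' b ⟨by linarith, le_rfl⟩).1]
      simp
  · set A := max (z - x) (b - z) with hA
    have hA1 : z - x ≤ A := le_max_left _ _
    have hA2 : b - z ≤ A := le_max_right _ _
    have hA8 : 8 ≤ A := by linarith
    have k1 : A ≤ 4 * √(1 - x) * (z - x) := by
      rw [hA]
      apply max_le _ h2
      have : 1 ≤ √(1 - x) := by
        rw [Real.one_le_sqrt]; linarith
      nlinarith
    have k2 : A ≤ 4 * √(1 - x) * (b - z) := by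
      rw [hA]
      apply max_le h1
      have : 1 ≤ √(1 - x) := by
        rw [Real.one_le_sqrt]; linarith
      nlinarith
    have e1 := fslope (x := x) (p := x) (q := z) hA8 (by linarith) hxz (by linarith) hs k1
    have e2 := fslope (x := x) (p := z) (q := b) hA8 hb hzb (by linarith) hs k2
    have := abs_sub ((f z - f x) / (z - x)) ((f b - f z) / (b - z))
    linarith

theorem f_lip {x0 x y : ℝ} (hx : x0 ≤ x) (hy : x0 ≤ y) (hx0 : x ≤ 0) (hy0 : y ≤ 0) :
    |f x - f y| ≤ √(1 - x0) * |x - y| := by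
  have hc : Convex ℝ (Icc x0 0) := convex_Icc _ _
  have := hc.norm_image_sub_le_of_norm_hasDerivWithin_le (f := f) (f' := df) (C := √(1 - x0))
    (fun u hu => (hasDerivAt_f u).hasDerivWithinAt) (fun u hu => ?_) ⟨hy, hy0⟩ ⟨hx, hx0⟩
  · simpa [Real.norm_eq_abs] using this
  · rw [Real.norm_eq_abs]
    exact (df_le hu.2).trans (Real.sqrt_le_sqrt (by linarith [hu.1]))

theorem growth {x z b : ℝ} (hxz : x < z) (hzb : z < b) (hb : b ≤ 0)
    (h : z - x ≤ √(1 - x) * (b - z)) :
    ((z - x) ^ 2 + (f z - f x) ^ 2) * (1 + 1 / √(1 - x)) ≤ (b - x) ^ 2 + (f b - f x) ^ 2 := by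
  have hL : 1 ≤ √(1 - x) := by
    rw [Real.one_le_sqrt]; linarith
  set L := √(1 - x) with hLdef
  have hL0 : 0 < L := by linarith
  have d1 : 0 < z - x := by linarith
  have d2 : 0 < b - z := by linarith
  rcases le_or_gt (b - z) (4 * L * (z - x)) with hc | hc
  · have hS := slopes hxz hzb hb (by rw [← hLdef]; nlinarith) (by rw [← hLdef]; exact hc)
    set S := (f z - f x) / (z - x) with hSd
    set S' := (f b - f z) / (b - z) with hSd'
    have e1 : f z - f x = S * (z - x) := by rw [hSd]; field_simp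
    have e2 : f b - f z = S' * (b - z) := by rw [hSd']; field_simp
    have e3 : f b - f x = S * (z - x) + S' * (b - z) := by linarith
    rw [e1, e3]
    have h3 : (S - S') ^ 2 ≤ 1 := by
      rw [← sq_abs]
      have := abs_nonneg (S - S')
      nlinarith
    have h4 : (z - x) ^ 2 * (1 + S ^ 2) * (1 / L) ≤ (z - x) * (b - z) * (1 + S ^ 2) := by
      have : (z - x) * (1 / L) ≤ b - z := by
        rw [mul_one_div, div_le_iff₀ hL0]
        linarith
      calc (z - x) ^ 2 * (1 + S ^ 2) * (1 / L) = (z - x) * (1 + S ^ 2) * ((z - x) * (1 / L)) := by ring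
        _ ≤ (z - x) * (1 + S ^ 2) * (b - z) := by gcongr
        _ = _ := by ring
    have h5 : (z - x) * (b - z) * (1 + S ^ 2) ≤ 2 * ((z - x) * (b - z)) * (1 + S * S') := by
      have : 0 ≤ (z - x) * (b - z) * (1 + S' ^ 2 - (S - S') ^ 2) := by
        apply mul_nonneg (by positivity)
        nlinarith [sq_nonneg S']
      nlinarith
    have h6 : 0 ≤ (b - z) ^ 2 * (1 + S' ^ 2) := by positivity
    nlinarith
  · have h1 : |f z - f x| ≤ L * (z - x) := by
      have := f_lip (x0 := x) (x := z) (y := x) hxz.le le_rfl (by linarith) (by linarith)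
      rwa [abs_of_pos d1] at this
    have h2 : (f z - f x) ^ 2 ≤ L ^ 2 * (z - x) ^ 2 := by
      rw [← sq_abs, ← mul_pow]
      gcongr
    have h3 : 1 / L ≤ 1 := by
      rw [div_le_one hL0]; exact hL
    have h4 : (4 * L * (z - x)) ^ 2 ≤ (b - x) ^ 2 := by
      apply pow_le_pow_left₀ (by positivity)
      linarith
    have h5 : (z - x) ^ 2 ≤ L ^ 2 * (z - x) ^ 2 := by
      have : 1 ≤ L ^ 2 := by nlinarith
      nlinarith [sq_nonneg (z - x)]
    calc ((z - x) ^ 2 + (f z - f x) ^ 2) * (1 + 1 / L)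
        ≤ (L ^ 2 * (z - x) ^ 2 + L ^ 2 * (z - x) ^ 2) * (1 + 1) := by gcongr
      _ ≤ (4 * L * (z - x)) ^ 2 := by nlinarith [sq_nonneg (L * (z - x))]
      _ ≤ (b - x) ^ 2 + (f b - f x) ^ 2 := by nlinarith [sq_nonneg (f b - f x)]

end Pool.Agent.Q95.SN
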